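import Pool.Agent.R723.SubLatMain

/-!
# Lattices embeddable into subspace lattices over division rings: no finite axiomatization

The definitions `Lat` (the first-order language of lattices), `latStructure` and `EmbedsSkew` are in
`Pool/Agent/R723/SubLatDefs.lean`.
-/

namespace Pool.Agent.Results.MP_d4b74c_al.NotFinitelyAxiomatizable

open FirstOrder Pool.Agent.R723.SubLat

universe u

/-- No finite set `S` of first-order sentences in the language of lattices has the property that a
lattice `L` embeds into the subspace lattice of a vector space over a division ring if and only if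
`L` satisfies all members of `S`. -/
theorem result :
    ¬ ∃ S : Set Lat.Sentence, S.Finite ∧
      ∀ (L : Type u) [Lattice L], EmbedsSkew L ↔ ∀ φ ∈ S, L ⊨ φ :=
  not_finitely_axiomatizable (fun L _ => EmbedsSkew L)
    (fun _ _ ⟨F, hF, V, hV, hM, f, hf⟩ => ⟨F, inferInstance, V, hV, hM, f, hf⟩) (fun _ _ h => h)

end Pool.Agent.Results.MP_d4b74c_al.NotFinitelyAxiomatizable
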